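import Pool.Agent.Work.MP_21aa77_al.Groups

set_option autoImplicit false

namespace Pool.Agent.Results.MP_21aa77_al.NoTameQuotient

open Pool.Agent.Work.MP_21aa77_al

/-- A locally finite group covered by the conjugates of a proper abelian subgroup does not have
exponent dividing four; its derived subgroup is nontrivial and has no nontrivial quotient that has
exponent dividing four or in which the normal closures of elements are nilpotent of bounded
class. -/
theorem result (G : Type*) [Group G]
    (hlf : ∀ s : Set G, s.Finite → (Subgroup.closure s : Set G).Finite)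
    (A : Subgroup G) (hA : A ≠ ⊤) (hab : ∀ a ∈ A, ∀ b ∈ A, a * b = b * a)
    (hcov : ∀ x : G, ∃ g : G, g⁻¹ * x * g ∈ A) :
    (∃ x : G, x ^ 4 ≠ 1) ∧ commutator G ≠ ⊥ ∧
      ∀ (Q : Type*) [Group Q] (f : commutator G →* Q), Function.Surjective f →
        ((∀ x : Q, x ^ 4 = 1) ∨
          ∃ c : ℕ, ∀ x : Q, (Subgroup.normalClosure {x}).lowerCentralSeries c = ⊥) →
        Subsingleton Q := by
  have hc : Cov A := ⟨hab, hcov⟩
  refine ⟨?_, fun h => hA (hc.top_of_comm fun x y => ?_), fun Q _ f hf hQ =>
    main_top hc hlf f hf hQ⟩
  · by_contra h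
    push Not at h
    exact hA (four_top hc hlf h)
  · exact ((commutator_eq_bot_iff G).1 h).is_comm.comm x y

end Pool.Agent.Results.MP_21aa77_al.NoTameQuotient
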